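import Pool.Agent.Helper53.Comp.GoalsK
import Pool.Agent.Helper42.Mono.LimitW

/-! Packet K8: the limit of `W^v` at a real vector `w`. -/

namespace Mono

namespace Comp

open Finset Filter Topology

namespace K8

variable {n : ℕ}

/-- The support of the vector `w` in the cone `F`. -/
noncomputable def sgR (w : Fin n → ℝ) (F : Finset (Fin n → ℤ)) : Finset (Fin n → ℤ) :=
  open Classical in F.filter (fun u => crd F w u ≠ 0)

theorem mem_sgR {w : Fin n → ℝ} {F : Finset (Fin n → ℤ)} {u : Fin n → ℤ} :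
    u ∈ sgR w F ↔ crd F w u ≠ 0 := by
  classical
  unfold sgR
  rw [mem_filter]
  constructor
  · exact fun h => h.2
  · intro h
    refine ⟨?_, h⟩
    by_contra hu
    exact h (crd_of_notMem F _ hu)

theorem sgR_subset (w : Fin n → ℝ) (F : Finset (Fin n → ℤ)) : sgR w F ⊆ F := by
  classical
  exact Finset.filter_subset _ _

theorem sum_sgR (Φ : Fan n) (w : Fin n → ℝ) {F : Finset (Fin n → ℤ)} (hF : F ∈ Φ.mx) :
    w = ∑ t ∈ sgR w F, crd F w t • toR t := by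
  classical
  conv_lhs => rw [← sum_crd (Φ.mx_indep F hF) (Φ.mx_card F hF) w]
  symm
  refine Finset.sum_subset (sgR_subset w F) fun t _ ht => ?_
  have : crd F w t = 0 := by
    by_contra h
    exact ht (mem_sgR.2 h)
  rw [this, zero_smul]

theorem isClass_sgR (Φ : Fan n) (w : Fin n → ℝ) {F : Finset (Fin n → ℤ)} (hF : F ∈ Φ.mx) :
    IsClassR Φ w (sgR w F) (crd F w) :=
  ⟨⟨F, hF, sgR_subset w F⟩, fun _ ht => mem_sgR.1 ht, sum_sgR Φ w hF⟩

theorem crd_eq_of_sgR_subset (Φ : Fan n) (w : Fin n → ℝ) {F F' : Finset (Fin n → ℤ)}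
    (hF : F ∈ Φ.mx) (hF' : F' ∈ Φ.mx) (hs : sgR w F ⊆ F') :
    crd F' w = crd F w := by
  classical
  refine crd_unique (Φ.mx_indep F' hF') ⟨fun u hu => ?_, ?_⟩
  · by_contra h
    exact hu (hs (mem_sgR.2 h))
  · conv_lhs => rw [sum_sgR Φ w hF]
    refine Finset.sum_subset hs fun t _ ht => ?_
    have : crd F w t = 0 := by
      by_contra h
      exact ht (mem_sgR.2 h)
    rw [this, zero_smul]

theorem sgR_eq_of_subset (Φ : Fan n) (w : Fin n → ℝ) {F F' : Finset (Fin n → ℤ)}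
    (hF : F ∈ Φ.mx) (hF' : F' ∈ Φ.mx) (hs : sgR w F ⊆ F') : sgR w F' = sgR w F := by
  ext u
  rw [mem_sgR, mem_sgR, crd_eq_of_sgR_subset Φ w hF hF' hs]

/-- The coefficients of a class determine its value `psi` in each maximal cone. -/
theorem crd_of_isClassR (Φ : Fan n) (w : Fin n → ℝ) {σ F : Finset (Fin n → ℤ)}
    {c : (Fin n → ℤ) → ℝ} (hc : IsClassR Φ w σ c) (hF : F ∈ Φ.mx) (hs : σ ⊆ F) :
    (∀ u ∈ σ, crd F w u = c u) ∧ ∀ u, u ∉ σ → crd F w u = 0 := by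
  classical
  have h1 : IsCrd F w (fun u => if u ∈ σ then c u else 0) := by
    refine ⟨fun u hu => ?_, ?_⟩
    · have : u ∉ σ := fun h => hu (hs h)
      simp [this]
    · rw [hc.2.2]
      rw [← Finset.sum_subset hs (f := fun u => (if u ∈ σ then c u else 0) • toR u)]
      · refine Finset.sum_congr rfl fun u hu => ?_
        simp [hu]
      · intro u _ hu
        simp [hu]
  have h2 := crd_unique (Φ.mx_indep F hF) h1
  constructor
  · intro u hu
    rw [h2]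
    simp [hu]
  · intro u hu
    rw [h2]
    simp [hu]

/-- The polynomial of the class `σ`. -/
noncomputable def qclR (Φ : Fan n) (v : Finset (Fin n → ℤ) → ℝ) (Z σ : Finset (Fin n → ℤ))
    (η : Fin n → ℝ) (c : (Fin n → ℤ) → ℝ) : Polynomial ℝ :=
  ∑ k ∈ range (n + 1), Polynomial.C ((-1) ^ k * Φ.Esum σ η
    (MvPolynomial.homogeneousComponent (n - σ.card)
      ((∑ u ∈ Φ.vert \ Z, MvPolynomial.X u) ^ k * Y0R Φ v Z σ c))) * Polynomial.X ^ (k + 1)

theorem qclR_eval (Φ : Fan n) (v : Finset (Fin n → ℤ) → ℝ) (Z σ : Finset (Fin n → ℤ))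
    (η : Fin n → ℝ) (c : (Fin n → ℤ) → ℝ) (s : ℝ) :
    (qclR Φ v Z σ η c).eval (1 / (s + ∑ t ∈ σ \ Z, c t)) =
      Φ.Esum σ η (MvPolynomial.homogeneousComponent (n - σ.card) (YhatR Φ v Z σ c s)) := by
  have h1 : YhatR Φ v Z σ c s = ∑ k ∈ range (n + 1),
      ((-1) ^ k * (s + ∑ t ∈ σ \ Z, c t)⁻¹ ^ (k + 1)) •
        ((∑ u ∈ Φ.vert \ Z, MvPolynomial.X u) ^ k * Y0R Φ v Z σ c) := by
    unfold YhatR tgeo
    rw [Finset.sum_mul]
    refine Finset.sum_congr rfl fun k _ => ?_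
    rw [MvPolynomial.smul_eq_C_mul, mul_assoc]
  rw [h1, map_sum, ← EsumL_apply, map_sum]
  unfold qclR
  rw [Polynomial.eval_finsetSum]
  refine Finset.sum_congr rfl fun k _ => ?_
  rw [map_smul, map_smul, smul_eq_mul, EsumL_apply, Polynomial.eval_mul, Polynomial.eval_C,
    Polynomial.eval_pow, Polynomial.eval_X, one_div]
  ring

theorem qclR_natDegree (Φ : Fan n) (v : Finset (Fin n → ℤ) → ℝ) (Z σ : Finset (Fin n → ℤ))
    (η : Fin n → ℝ) (c : (Fin n → ℤ) → ℝ) : (qclR Φ v Z σ η c).natDegree ≤ n + 1 := by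
  unfold qclR
  refine Polynomial.natDegree_sum_le_of_forall_le _ _ fun k hk => ?_
  refine (Polynomial.natDegree_C_mul_X_pow_le _ _).trans ?_
  have := mem_range.1 hk
  omega

end K8

open K8

/-- K8. -/
theorem limitWR (h1 : ClassLimitR) (h2 : KillZeroR) : LimitWR := by
  classical
  intro n Φ v Z V w η fc hw hwV hv hη hfc
  let Sg : Finset (Finset (Fin n → ℤ)) := Φ.mx.image (sgR w)
  -- the coefficients of the class `σ`
  let cc : Finset (Fin n → ℤ) → (Fin n → ℤ) → ℝ := fun σ => crd (fc σ) w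
  have hSf : ∀ σ ∈ Sg, σ ∈ Φ.faces := by
    intro σ hσ
    obtain ⟨F, hF, rfl⟩ := mem_image.1 hσ
    exact (Φ.mem_faces).2 ⟨F, hF, sgR_subset w F⟩
  have hsg : ∀ σ ∈ Sg, sgR w (fc σ) = σ := by
    intro σ hσ
    have hf := hfc σ (hSf σ hσ)
    obtain ⟨F, hF, rfl⟩ := mem_image.1 hσ
    exact sgR_eq_of_subset Φ w hF hf.1 hf.2
  have hcls : ∀ σ ∈ Sg, IsClassR Φ w σ (cc σ) := by
    intro σ hσ
    have h := isClass_sgR Φ w (hfc σ (hSf σ hσ)).1
    rw [hsg σ hσ] at h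
    exact h
  have hpsi : ∀ σ ∈ Sg, psi Z (fc σ) w = ∑ t ∈ σ \ Z, cc σ t := by
    intro σ hσ
    unfold psi
    symm
    refine Finset.sum_subset (Finset.sdiff_subset_sdiff (hfc σ (hSf σ hσ)).2
      (Finset.Subset.refl _)) fun t ht ht' => ?_
    exact (crd_of_isClassR Φ w (hcls σ hσ) (hfc σ (hSf σ hσ)).1 (hfc σ (hSf σ hσ)).2).2 t
      (fun h => ht' (mem_sdiff.2 ⟨h, (mem_sdiff.1 ht).2⟩))
  refine ⟨fun σ => if σ ∈ Sg ∧ ¬ KillR Φ V Z σ then qclR Φ v Z σ η (cc σ) else 0, ?_, ?_, ?_⟩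
  · intro σ
    dsimp only
    split_ifs with h
    · exact qclR_natDegree Φ v Z σ η (cc σ)
    · simp
  · intro σ hσ
    by_cases h : σ ∈ Sg ∧ ¬ KillR Φ V Z σ
    · exact ⟨hSf σ h.1, ⟨cc σ, hcls σ h.1⟩, h.2⟩
    · exact absurd (if_neg h) hσ
  · intro s hs
    have hmaps : ∀ F ∈ Φ.mx, sgR w F ∈ Sg := fun F hF => mem_image_of_mem _ hF
    have hW : ∀ x : Fin n → ℝ, WR Φ v Z s x =
        ∑ σ ∈ Sg, ∑ F ∈ Φ.mx.filter (fun F => σ ⊆ F), WtermR v Z F s x := by
      intro x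
      unfold WR
      rw [← Finset.sum_fiberwise_of_maps_to hmaps]
      refine Finset.sum_congr rfl fun σ hσ => ?_
      refine Finset.sum_congr ?_ fun _ _ => rfl
      ext F
      simp only [mem_filter]
      obtain ⟨F₀, hF₀, rfl⟩ := mem_image.1 hσ
      constructor
      · rintro ⟨h, h'⟩
        exact ⟨h, by rw [← h']; exact sgR_subset w F⟩
      · rintro ⟨h, h'⟩
        exact ⟨h, sgR_eq_of_subset Φ w hF₀ h h'⟩
    have hlim : (∑ σ ∈ Φ.faces,
        (if σ ∈ Sg ∧ ¬ KillR Φ V Z σ then qclR Φ v Z σ η (cc σ) else 0).eval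
          (1 / (s + psi Z (fc σ) w))) =
        ∑ σ ∈ Sg, Φ.Esum σ η (MvPolynomial.homogeneousComponent (n - σ.card)
          (YhatR Φ v Z σ (cc σ) s)) := by
      rw [← Finset.sum_subset (fun σ hσ => hSf σ hσ : Sg ⊆ Φ.faces)]
      · refine Finset.sum_congr rfl fun σ hσ => ?_
        by_cases hk : KillR Φ V Z σ
        · rw [if_neg (fun h => h.2 hk), Polynomial.eval_zero]
          exact (h2 n Φ v Z σ V w (cc σ) hwV hv (hcls σ hσ) hk η hη s).symm
        · rw [if_pos ⟨hσ, hk⟩, hpsi σ hσ]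
          exact qclR_eval Φ v Z σ η (cc σ) s
      · intro σ _ hσ
        rw [if_neg (fun h => hσ h.1), Polynomial.eval_zero]
    simp only [hW]
    rw [hlim]
    refine tendsto_finsetSum _ fun σ hσ => ?_
    refine h1 n Φ v Z σ w (cc σ) hw (hcls σ hσ) η hη s ?_
    rw [← hpsi σ hσ]
    exact hs (fc σ) (hfc σ (hSf σ hσ)).1

end Comp

end Mono
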